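import Mathlib
import Pool.Agent.V117.MonIdeal
import Pool.Agent.V117.MatHom
import Pool.Agent.V117.MConv1
import Pool.Agent.V117.MConv2
import Pool.Agent.V117.MConv3

namespace Pool.Agent.Results.MP_8dad47_al.HomologicalShift

open MvPolynomial Pool.Agent.V117 Pool.Agent.V117.MatHom Pool.Agent.V117.MConv

/-- The squarefree exponent vector of `F`. -/
noncomputable def sqf {n : ℕ} (F : Finset (Fin n)) : Fin n →₀ ℕ := ∑ j ∈ F, Finsupp.single j 1

/-- `c` describes the element `∑_F c(F) x^{a - F} e_F` of multidegree `a` of the `i`-th module of the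
Koszul complex of `x_1, …, x_n` with coefficients in the monomial ideal `J`. -/
def IsKoszulChain {n : ℕ} {K : Type} [Field K] (J : Ideal (MvPolynomial (Fin n) K)) (i : ℕ)
    (a : Fin n →₀ ℕ) (c : Finset (Fin n) → K) : Prop :=
  ∀ F, c F ≠ 0 → F.card = i ∧ sqf F ≤ a ∧ monomial (a - sqf F) (1 : K) ∈ J

/-- The Koszul differential `e_F ↦ ∑_{j ∈ F} (-1)^{#{l ∈ F : l < j}} x_j e_{F ∖ j}` in a fixed
multidegree. -/
def koszulD {n : ℕ} {K : Type} [Field K] (c : Finset (Fin n) → K) : Finset (Fin n) → K :=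
  fun G => ∑ j ∈ Gᶜ, (-1) ^ (G.filter (· < j)).card * c (insert j G)

/-- `Tor_i(K, J)_a ≠ 0`, computed by the Koszul complex. -/
def TorNonzero {n : ℕ} {K : Type} [Field K] (J : Ideal (MvPolynomial (Fin n) K)) (i : ℕ)
    (a : Fin n →₀ ℕ) : Prop :=
  ∃ c, IsKoszulChain J i a c ∧ koszulD c = 0 ∧ ∀ c', IsKoszulChain J (i + 1) a c' → koszulD c' ≠ c

/-- The `i`-th homological shift ideal. -/
noncomputable def HS {n : ℕ} {K : Type} [Field K] (i : ℕ) (J : Ideal (MvPolynomial (Fin n) K)) :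
    Ideal (MvPolynomial (Fin n) K) :=
  Ideal.span {f | ∃ a, TorNonzero J i a ∧ f = monomial a 1}

/-- Polymatroidal ideals: generated by monomials of one degree satisfying the exchange condition. -/
def IsPolymatroidal {n : ℕ} {K : Type} [Field K] (I : Ideal (MvPolynomial (Fin n) K)) : Prop :=
  ∃ (G : Set (Fin n →₀ ℕ)) (d : ℕ), (∀ u ∈ G, ∑ l, u l = d) ∧
    (∀ u ∈ G, ∀ v ∈ G, ∀ p, v p < u p →
      ∃ q, u q < v q ∧ u - Finsupp.single p 1 + Finsupp.single q 1 ∈ G) ∧
    I = Ideal.span ((fun u => monomial u (1 : K)) '' G)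

section

variable {n : ℕ} {K : Type} [Field K]

lemma sqf_apply (F : Finset (Fin n)) (l : Fin n) : sqf F l = if l ∈ F then 1 else 0 := by
  unfold sqf
  rw [Finsupp.coe_finsetSum, Finset.sum_apply]
  simp only [Finsupp.single_apply]
  rw [Finset.sum_ite_eq' F l (fun _ => 1)]

/-- integer vector -/
def cz (u : Fin n →₀ ℕ) : Fin n → ℤ := fun l => (u l : ℤ)

/-- the set of integer vectors of the generators -/
def BG (G : Set (Fin n →₀ ℕ)) : Set (Fin n → ℤ) := {x | ∃ u ∈ G, x = cz u}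

lemma BG_exc {G : Set (Fin n →₀ ℕ)} (h : ∀ u ∈ G, ∀ v ∈ G, ∀ p, v p < u p →
      ∃ q, u q < v q ∧ u - Finsupp.single p 1 + Finsupp.single q 1 ∈ G) : Exc (BG G) := by
  rintro _ ⟨u, hu, rfl⟩ _ ⟨v, hv, rfl⟩ i hi
  have hi' : v i < u i := by unfold cz at hi; omega
  obtain ⟨q, hq, hm⟩ := h u hu v hv i hi'
  refine ⟨q, by unfold cz; omega, _, hm, ?_⟩
  ext l
  rw [mv_apply]
  simp only [cz, Finsupp.add_apply, Finsupp.tsub_apply, Finsupp.single_apply]
  have hiq : i ≠ q := by rintro rfl; omega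
  by_cases h1 : l = i
  · subst h1
    simp only [if_true]
    rw [if_neg hiq, if_neg (Ne.symm hiq)]
    omega
  · rw [if_neg h1, if_neg (Ne.symm h1)]
    by_cases h2 : l = q
    · subst h2; simp
    · rw [if_neg h2, if_neg (Ne.symm h2)]; simp

lemma sm_cz {G : Set (Fin n →₀ ℕ)} {k : ℕ} {x : Fin n → ℤ} (hx : x ∈ Sm (BG G) k) :
    ∃ u : Fin n →₀ ℕ, x = cz u := by
  obtain ⟨b, hb, rfl⟩ := hx
  choose u hu hbu using hb
  refine ⟨∑ t, u t, ?_⟩
  ext l
  rw [Finset.sum_apply]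
  unfold cz
  rw [Finsupp.coe_finsetSum, Finset.sum_apply]
  push_cast
  refine Finset.sum_congr rfl fun t _ => ?_
  rw [hbu t]; rfl

lemma sm_sum {G : Set (Fin n →₀ ℕ)} {d : ℕ} (hd : ∀ u ∈ G, ∑ l, u l = d) (k : ℕ) :
    ∀ x ∈ Sm (BG G) k, ∑ l, x l = k * d := by
  rintro x ⟨b, hb, rfl⟩
  simp only [Finset.sum_apply]
  rw [Finset.sum_comm]
  have : ∀ t, ∑ l, b t l = d := by
    intro t
    obtain ⟨u, hu, hbu⟩ := hb t
    rw [hbu, ← hd u hu]
    unfold cz
    push_cast; rfl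
  simp [this]

/-- exponents of the `k`-th power -/
def Uk (G : Set (Fin n →₀ ℕ)) (k : ℕ) : Set (Fin n →₀ ℕ) :=
  {v | ∃ x ∈ Sm (BG G) k, ∀ l, x l ≤ cz v l}

lemma Uk_upper (G : Set (Fin n →₀ ℕ)) (k : ℕ) : IsUpperSet (Uk G k) := by
  rintro u v huv ⟨x, hx, h⟩
  refine ⟨x, hx, fun l => (h l).trans ?_⟩
  have := huv l
  unfold cz
  exact_mod_cast this

lemma pow_eq (G : Set (Fin n →₀ ℕ)) (k : ℕ) :
    (Ideal.span ((fun u => monomial u (1 : K)) '' G)) ^ k = upIdeal K (Uk G k) := by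
  induction k with
  | zero =>
    rw [pow_zero, Ideal.one_eq_top, eq_comm, Ideal.eq_top_iff_one]
    exact Ideal.subset_span ⟨0, ⟨0, ⟨Fin.elim0, fun t => t.elim0, by simp⟩, fun l => le_rfl⟩, rfl⟩
  | succ k ih =>
    rw [pow_succ, ih]
    show upIdeal K (Uk G k) * upIdeal K G = _
    apply upIdeal_mul
    · rintro p ⟨x, hx, hxp⟩ q hq
      refine ⟨x + cz q, sm_add hx ⟨q, hq, rfl⟩, fun l => ?_⟩
      have := hxp l
      simp only [cz, Pi.add_apply, Finsupp.add_apply] at this ⊢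
      push_cast; omega
    · rintro r ⟨x, ⟨b, hb, rfl⟩, hxr⟩
      obtain ⟨q, hq, hbq⟩ := hb (Fin.last k)
      have hx' : (∑ t : Fin k, b t.castSucc) ∈ Sm (BG G) k := ⟨fun t => b t.castSucc,
        fun t => hb _, rfl⟩
      obtain ⟨p, hp⟩ := sm_cz hx'
      refine ⟨p, ⟨_, hx', fun l => by rw [hp]⟩, q, hq, fun l => ?_⟩
      have := hxr l
      rw [Fin.sum_univ_castSucc, hbq, hp] at this
      simp only [cz, Pi.add_apply] at this
      rw [Finsupp.add_apply]
      omega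

lemma mem_Kc (G : Set (Fin n →₀ ℕ)) (k : ℕ) (a : Fin n →₀ ℕ) (F : Finset (Fin n)) :
    (sqf F ≤ a ∧ monomial (a - sqf F) (1 : K) ∈
      (Ideal.span ((fun u => monomial u (1 : K)) '' G)) ^ k) ↔ F ∈ Kc (Sm (BG G) k) (cz a) := by
  rw [pow_eq, monomial_mem_upIdeal (Uk_upper G k) one_ne_zero]
  constructor
  · rintro ⟨h1, x, hx, hxl⟩
    refine ⟨x, hx, fun l => ?_⟩
    have h2 := hxl l
    have h3 := h1 l
    simp only [cz, Finsupp.tsub_apply] at h2 ⊢
    unfold ind
    rw [sqf_apply] at h2 h3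
    split_ifs at h2 h3 ⊢ <;> omega
  · rintro ⟨x, hx, hxl⟩
    obtain ⟨u, hu⟩ := sm_cz hx
    have h1 : sqf F ≤ a := by
      intro l
      have := hxl l
      rw [hu] at this
      unfold ind cz at this
      rw [sqf_apply]
      split_ifs at this ⊢ <;> omega
    refine ⟨h1, x, hx, fun l => ?_⟩
    have h2 := hxl l
    have h3 := h1 l
    simp only [cz, Finsupp.tsub_apply] at h2 ⊢
    unfold ind at h2
    rw [sqf_apply] at h3 ⊢
    split_ifs at h2 h3 ⊢ <;> omega

lemma chain_iff (G : Set (Fin n →₀ ℕ)) (k i : ℕ) (a : Fin n →₀ ℕ) (c : Finset (Fin n) → K) :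
    IsKoszulChain ((Ideal.span ((fun u => monomial u (1 : K)) '' G)) ^ k) i a c ↔
      Ch (Kc (Sm (BG G) k) (cz a)) i c := by
  constructor
  · intro h F hF
    obtain ⟨h1, h2⟩ := h F hF
    exact ⟨(mem_Kc G k a F).mp h2, h1⟩
  · intro h F hF
    obtain ⟨h1, h2⟩ := h F hF
    exact ⟨h2, (mem_Kc G k a F).mpr h1⟩

lemma koszulD_eq (c : Finset (Fin n) → K) : koszulD c = bd c := rfl

theorem tor_iff {G : Set (Fin n →₀ ℕ)} {d : ℕ} (hd : ∀ u ∈ G, ∑ l, u l = d)
    (hex : ∀ u ∈ G, ∀ v ∈ G, ∀ p, v p < u p →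
      ∃ q, u q < v q ∧ u - Finsupp.single p 1 + Finsupp.single q 1 ∈ G) (k i : ℕ)
    (a : Fin n →₀ ℕ) :
    TorNonzero ((Ideal.span ((fun u => monomial u (1 : K)) '' G)) ^ k) i a ↔
      Good (Sm (BG G) k) (cz a) i := by
  have hB : Exc (Sm (BG G) k) := (BG_exc hex).sm k
  have hs : ∀ x ∈ Sm (BG G) k, ∑ l, x l = ((k * d : ℕ) : ℤ) := by
    intro x hx
    rw [sm_sum hd k x hx]; push_cast; rfl
  rw [← top_iff_good hB hs]
  have hM := Kc_isMat hB hs (cz a)
  constructor
  · rintro ⟨c, hc, hbd, hno⟩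
    rw [chain_iff] at hc
    rw [koszulD_eq] at hbd
    have hne : c ≠ 0 := by
      rintro rfl
      exact hno 0 (fun F hF => absurd rfl hF) bd_zero
    obtain ⟨F0, hF0⟩ := Function.ne_iff.mp hne
    have hmax : ∀ F ∈ Kc (Sm (BG G) k) (cz a), F.card ≤ i := by
      intro F hF
      by_contra hcon
      obtain ⟨u, hu, hbu⟩ := vanish Finset.univ _ hM (fun F _ => Finset.subset_univ F) i
        ⟨F, hF, by omega⟩ c hc hbd
      exact hno u ((chain_iff G k (i + 1) a u).mpr hu) hbu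
    refine ⟨⟨F0, (hc F0 hF0).1, (hc F0 hF0).2⟩, hmax, fun e => ?_⟩
    by_contra hcon
    push Not at hcon
    apply hne
    funext F
    by_contra hF
    have hF' : c F ≠ 0 := hF
    obtain ⟨h1, h2⟩ := hc F hF'
    have heF := hcon F h1 h2
    have h3 := congrFun hbd (F.erase e)
    unfold bd at h3
    rw [Finset.sum_eq_single e] at h3
    · rw [Finset.insert_erase heF] at h3
      have hsg : sg K e (F.erase e) ≠ 0 := by
        unfold sg
        exact pow_ne_zero _ (neg_ne_zero.mpr one_ne_zero)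
      rw [Pi.zero_apply, mul_eq_zero] at h3
      rcases h3 with h3 | h3
      · exact hsg h3
      · exact hF' h3
    · intro j hj hje
      have hcj : c (insert j (F.erase e)) = 0 := by
        by_contra hcj
        obtain ⟨h4, h5⟩ := hc _ hcj
        have h6 := hcon _ h4 h5
        rw [Finset.mem_insert, Finset.mem_erase] at h6
        rcases h6 with h6 | h6
        · exact hje h6.symm
        · exact h6.1 rfl
      rw [hcj, mul_zero]
    · intro h4
      exact absurd (by simp) h4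
  · rintro ⟨⟨F, hF, hFc⟩, hmax, hco⟩
    obtain ⟨c, hc, hbc, hne⟩ := nonvanish (K := K) Finset.univ _ hM (fun F _ => Finset.subset_univ F) i
      ⟨F, hF, hFc⟩ hmax hco
    refine ⟨c, (chain_iff G k i a c).mpr hc, hbc, fun c' hc' hcc' => ?_⟩
    rw [chain_iff] at hc'
    apply hne
    rw [← hcc', koszulD_eq]
    have : c' = 0 := by
      funext F
      by_contra hF
      obtain ⟨h1, h2⟩ := hc' F hF
      have := hmax F h1
      omega
    rw [this, bd_zero]

end

/-- For every polymatroidal ideal `I` and all `k ≥ i > 0` one has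
`HS_i(I^{k+1}) = I * HS_i(I^k)`: the homological shift algebra `HS_i(R(I))` is generated in degrees
at most `i`. -/
theorem result (K : Type) [Field K] (n : ℕ) (I : Ideal (MvPolynomial (Fin n) K))
    (hI : IsPolymatroidal I) (i k : ℕ) (hi : 0 < i) (hik : i ≤ k) :
    HS i (I ^ (k + 1)) = I * HS i (I ^ k) := by
  obtain ⟨G, d, hd, hex, rfl⟩ := hI
  apply le_antisymm
  · conv_lhs => unfold HS
    rw [Ideal.span_le]
    rintro _ ⟨a, ha, rfl⟩
    rw [tor_iff hd hex] at ha
    obtain ⟨_, ⟨u, hu, rfl⟩, hb⟩ := good_remove (BG_exc hex) hik ha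
    -- `u ≤ a`
    have hnn : ∀ l, 0 ≤ (cz a - cz u) l := by
      intro l
      obtain ⟨⟨F, -, hF⟩, -⟩ := hb
      obtain ⟨w, hw⟩ := sm_cz hF
      have h1 := congrFun hw l
      simp only [Pi.sub_apply] at h1 ⊢
      have h2 : 0 ≤ ind F l := by unfold ind; split_ifs <;> omega
      have h3 : 0 ≤ cz w l := by unfold cz; omega
      omega
    have hle : u ≤ a := by
      intro l
      have := hnn l
      simp only [Pi.sub_apply, cz] at this
      omega
    have hcz : cz a - cz u = cz (a - u) := by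
      ext l
      have := hle l
      simp only [Pi.sub_apply, cz, Finsupp.tsub_apply]
      omega
    rw [hcz, ← tor_iff (K := K) hd hex] at hb
    have e : monomial a (1 : K) = monomial u 1 * monomial (a - u) 1 := by
      rw [monomial_mul, one_mul, add_tsub_cancel_of_le hle]
    show monomial a (1 : K) ∈ _
    rw [e]
    exact Ideal.mul_mem_mul (Ideal.subset_span ⟨u, hu, rfl⟩) (Ideal.subset_span ⟨a - u, hb, rfl⟩)
  · unfold HS
    rw [Ideal.span_mul_span', Ideal.span_le]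
    rintro _ ⟨_, ⟨u, hu, rfl⟩, _, ⟨a, ha, rfl⟩, rfl⟩
    rw [tor_iff hd hex] at ha
    have h1 := good_add ha (b := cz u) ⟨u, hu, rfl⟩
    have hcz : cz a + cz u = cz (u + a) := by
      ext l
      simp only [Pi.add_apply, cz, Finsupp.add_apply]
      push_cast; ring
    rw [hcz, ← tor_iff (K := K) hd hex] at h1
    refine Ideal.subset_span ⟨u + a, h1, ?_⟩
    simp only
    rw [monomial_mul, one_mul]

end Pool.Agent.Results.MP_8dad47_al.HomologicalShift
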